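import Pool.Agent.N520.AN.Stm2

/-!
Project AN, second part: the limit flags of subsequences.
-/

set_option autoImplicit false

open Set Filter Topology

namespace Pool.Agent.N293.AN2

open Pool.Agent.N520.AN

variable {E : Type} [NormedAddCommGroup E] [NormedSpace ℝ E] [FiniteDimensional ℝ E]

theorem att_le {q : ℕ} {Λ : Subgroup (E ≃ₗ[ℝ] E)} (hΛ : Anti q Λ) (g : ℕ → E ≃ₗ[ℝ] E)
    (hg : ∀ j, g j ∈ Λ) : Module.finrank ℝ (att g) ≤ q := by
  by_cases h : att g = ⊥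
  · rw [h, finrank_bot]; exact Nat.zero_le _
  · obtain ⟨v, hv, hv0⟩ := Submodule.exists_mem_ne_zero_of_ne_bot h
    obtain ⟨φ, hφ, hF⟩ := hΛ.div g hg (div_of_att hv hv0)
    exact (Submodule.finrank_mono (att_sub g hφ)).trans hF.1.le

theorem big_le {q : ℕ} {Λ : Subgroup (E ≃ₗ[ℝ] E)} (hΛ : Anti q Λ) (g : ℕ → E ≃ₗ[ℝ] E)
    (hg : ∀ j, g j ∈ Λ) (hd : Div g) : Module.finrank ℝ (big g) + q ≤ Module.finrank ℝ E := by
  obtain ⟨φ, hφ, hF⟩ := hΛ.div g hg hd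
  exact (Nat.add_le_add_right (Submodule.finrank_mono (big_sub g hφ)) q).trans hF.2.le

theorem t_sub : S2_SUB := by
  intro E _ _ _ q Λ hΛ g hg
  refine ⟨att_le hΛ g hg, big_le hΛ g hg, fun hF φ hφ => ?_⟩
  have hgφ : ∀ j, (g ∘ φ) j ∈ Λ := fun j => hg _
  have h1 : att g = att (g ∘ φ) :=
    Submodule.eq_of_le_of_finrank_le (att_sub g hφ) ((att_le hΛ _ hgφ).trans hF.1.ge)
  have h2 : att (g ∘ φ) ≠ ⊥ := by
    intro h
    have h3 := hF.1
    rw [h1, h, finrank_bot] at h3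
    exact absurd hΛ.pos (by omega)
  obtain ⟨v, hv, hv0⟩ := Submodule.exists_mem_ne_zero_of_ne_bot h2
  have h4 := big_le hΛ _ hgφ (div_of_att hv hv0)
  have h5 : big g = big (g ∘ φ) :=
    Submodule.eq_of_le_of_finrank_le (big_sub g hφ) (by have := hF.2; omega)
  exact ⟨h1.symm, h5.symm⟩

end Pool.Agent.N293.AN2
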